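import Pool.Agent.Helper87.CA.Goals

set_option autoImplicit false

open Finset Pool.Agent.Helper87.CA

namespace Pool.Agent.Helper42.CA

theorem cos_of_costas {n : ℕ} (f : Equiv.Perm (Fin n)) (hf : IsCostas f) :
    Cos (f : Fin n → Fin n) := by
  intro i j k l hij h
  have h1 : (((i : ℕ) : ℤ) - ((j : ℕ) : ℤ)) = (((k : ℕ) : ℤ) - ((l : ℕ) : ℤ)) := by
    have := congrArg Prod.fst h
    simpa [pt] using this
  have h2 : (((f i : ℕ) : ℤ) - ((f j : ℕ) : ℤ)) = (((f k : ℕ) : ℤ) - ((f l : ℕ) : ℤ)) := by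
    have := congrArg Prod.snd h
    simpa [pt] using this
  rcases lt_or_gt_of_ne hij with hlt | hgt
  · have hlt' : (i : ℕ) < (j : ℕ) := hlt
    have hkl : k < l := by
      have : (k : ℕ) < (l : ℕ) := by omega
      exact this
    have := hf j i l k hlt hkl (by linarith) (by linarith)
    exact ⟨this.2, this.1⟩
  · have hgt' : (j : ℕ) < (i : ℕ) := hgt
    have hkl : l < k := by
      have : (l : ℕ) < (k : ℕ) := by omega
      exact this
    exact hf i j k l hgt hkl h2 h1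

theorem count_le {n : ℕ} {M : ℝ} (h : Bd n n M) : (costasCount n : ℝ) ≤ M := by
  classical
  have hinj : Function.Injective
      (fun f : {f : Equiv.Perm (Fin n) // IsCostas f} => ((f : Equiv.Perm (Fin n)) : Fin n → Fin n)) := by
    intro f g hfg
    apply Subtype.ext
    exact DFunLike.coe_injective hfg
  have hF := h (Finset.univ.image
    (fun f : {f : Equiv.Perm (Fin n) // IsCostas f} => ((f : Equiv.Perm (Fin n)) : Fin n → Fin n)))
    (by
      intro f hf
      obtain ⟨g, -, rfl⟩ := Finset.mem_image.1 hf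
      exact cos_of_costas g.1 g.2)
    (by
      intro f _ g _
      have : (Vd f g).card ≤ n := by
        simpa using Finset.card_le_univ (Vd f g)
      exact_mod_cast this)
  rw [Finset.card_image_of_injective _ hinj] at hF
  have hc : costasCount n = (Finset.univ : Finset {f : Equiv.Perm (Fin n) // IsCostas f}).card := by
    unfold costasCount
    rw [Nat.card_eq_fintype_card, Finset.card_univ]
  rw [hc]
  exact hF

theorem count_le_factorial (n : ℕ) : costasCount n ≤ n.factorial := by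
  classical
  unfold costasCount
  rw [Nat.card_eq_fintype_card]
  calc Fintype.card {f : Equiv.Perm (Fin n) // IsCostas f} ≤ Fintype.card (Equiv.Perm (Fin n)) :=
        Fintype.card_subtype_le _
    _ = n.factorial := by rw [Fintype.card_perm, Fintype.card_fin]

theorem low {n : ℕ} (hn : 2 ≤ n) :
    (1 / 2 : ℝ) ≤ (n : ℝ) ^ (4 / 5 : ℝ) * Real.log n ^ (6 / 5 : ℝ) := by
  have hn' : (2 : ℝ) ≤ n := by exact_mod_cast hn
  have hl2 : (0.6931471803 : ℝ) < Real.log 2 := Real.log_two_gt_d9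
  have hl : Real.log 2 ≤ Real.log n := Real.log_le_log (by norm_num) hn'
  have h1 : (2 : ℝ) ^ (1 / 2 : ℝ) ≤ (n : ℝ) ^ (4 / 5 : ℝ) := by
    calc (2 : ℝ) ^ (1 / 2 : ℝ) ≤ (2 : ℝ) ^ (4 / 5 : ℝ) :=
          Real.rpow_le_rpow_of_exponent_le (by norm_num) (by norm_num)
      _ ≤ (n : ℝ) ^ (4 / 5 : ℝ) := Real.rpow_le_rpow (by norm_num) hn' (by norm_num)
  have h2 : (0.69 : ℝ) ^ (2 : ℝ) ≤ Real.log n ^ (6 / 5 : ℝ) := by
    calc (0.69 : ℝ) ^ (2 : ℝ) ≤ (0.69 : ℝ) ^ (6 / 5 : ℝ) :=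
          Real.rpow_le_rpow_of_exponent_ge (by norm_num) (by norm_num) (by norm_num)
      _ ≤ Real.log n ^ (6 / 5 : ℝ) := Real.rpow_le_rpow (by norm_num) (by linarith) (by norm_num)
  have h3 : (1.4 : ℝ) ≤ (2 : ℝ) ^ (1 / 2 : ℝ) := by
    rw [← Real.sqrt_eq_rpow]
    exact Real.le_sqrt_of_sq_le (by norm_num)
  have h4 : (0.47 : ℝ) ≤ (0.69 : ℝ) ^ (2 : ℝ) := by
    rw [show (2 : ℝ) = ((2 : ℕ) : ℝ) by norm_num, Real.rpow_natCast]
    norm_num
  calc (1 / 2 : ℝ) ≤ 1.4 * 0.47 := by norm_num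
    _ ≤ (n : ℝ) ^ (4 / 5 : ℝ) * Real.log n ^ (6 / 5 : ℝ) := by
        apply mul_le_mul (h3.trans h1) (h4.trans h2) (by norm_num)
        exact le_trans (by norm_num) (h3.trans h1)

theorem gFIN : G_FIN := by
  rintro ⟨n0, h0⟩
  refine ⟨max 5000 (2 * Real.log (n0.factorial : ℝ)), ?_⟩
  intro n hn
  have hlow := low hn
  have hpos : (0 : ℝ) ≤ (n : ℝ) ^ (4 / 5 : ℝ) * Real.log n ^ (6 / 5 : ℝ) := by linarith
  by_cases hnn : n0 ≤ n
  · refine (count_le (h0 n hnn)).trans ?_
    apply Real.exp_le_exp.2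
    exact mul_le_mul_of_nonneg_right (le_max_left _ _) hpos
  · have hlt : n ≤ n0 := by omega
    have h1 : (costasCount n : ℝ) ≤ (n0.factorial : ℝ) := by
      exact_mod_cast (count_le_factorial n).trans (Nat.factorial_le hlt)
    have hf : (0 : ℝ) < (n0.factorial : ℝ) := by exact_mod_cast n0.factorial_pos
    have hf1 : (1 : ℝ) ≤ (n0.factorial : ℝ) := by exact_mod_cast n0.factorial_pos
    have hlog : 0 ≤ Real.log (n0.factorial : ℝ) := Real.log_nonneg hf1
    refine h1.trans ?_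
    rw [← Real.exp_log hf]
    apply Real.exp_le_exp.2
    rw [Real.exp_log hf]
    calc Real.log (n0.factorial : ℝ) = (2 * Real.log (n0.factorial : ℝ)) * (1 / 2) := by ring
      _ ≤ (2 * Real.log (n0.factorial : ℝ)) *
          ((n : ℝ) ^ (4 / 5 : ℝ) * Real.log n ^ (6 / 5 : ℝ)) :=
          mul_le_mul_of_nonneg_left hlow (by linarith)
      _ ≤ _ := mul_le_mul_of_nonneg_right (le_max_right _ _) hpos

end Pool.Agent.Helper42.CA
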